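import Mathlib

set_option autoImplicit false

open Finset

namespace Pool.Agent.SE9

def Q2 (m : ℕ) : ℕ := m.factorization.prod (fun p k => if 2 ≤ k then p ^ k else 1)

def Q1 (m : ℕ) : ℕ := ∏ p ∈ m.primeFactors.filter (fun p => m.factorization p = 1), p

lemma Q2_eq (m : ℕ) : Q2 m = ∏ p ∈ m.primeFactors,
    (if 2 ≤ m.factorization p then p ^ (m.factorization p) else 1) := by
  rfl

lemma Q1_mul_Q2 (m : ℕ) (hm : m ≠ 0) : Q1 m * Q2 m = m := by
  conv_rhs => rw [← Nat.prod_factorization_pow_eq_self hm]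
  rw [Q2_eq, Q1, Finset.prod_filter, ← Finset.prod_mul_distrib]
  rw [Finsupp.prod, Nat.support_factorization]
  refine Finset.prod_congr rfl (fun p hp => ?_)
  have h1 : 1 ≤ m.factorization p :=
    (Nat.Prime.factorization_pos_of_dvd (Nat.prime_of_mem_primeFactors hp) hm
      (Nat.dvd_of_mem_primeFactors hp))
  split_ifs with h2 h3 h3
  · omega
  · rw [h2]; simp
  · simp
  · omega

lemma Q2_powerful (m : ℕ) (p : ℕ) (hp : p.Prime) (h : p ∣ Q2 m) : p ^ 2 ∣ Q2 m := by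
  rw [Q2_eq] at h ⊢
  obtain ⟨q, hq, hpq⟩ := (hp.prime.dvd_finsetProd_iff _).1 h
  have hqp : q.Prime := Nat.prime_of_mem_primeFactors hq
  split_ifs at hpq with h2
  · have : p = q := (Nat.prime_dvd_prime_iff_eq hp hqp).1 (hp.dvd_of_dvd_pow hpq)
    subst this
    refine dvd_trans ?_ (Finset.dvd_prod_of_mem _ hq)
    rw [if_pos h2]
    exact pow_dvd_pow _ h2
  · exact absurd (Nat.dvd_one.1 hpq) hp.one_lt.ne'

lemma exists_ab (q : ℕ) (hq : q ≠ 0) (h : ∀ p : ℕ, p.Prime → p ∣ q → p ^ 2 ∣ q) :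
    ∃ a b : ℕ, 0 < a ∧ 0 < b ∧ q = a ^ 2 * b ^ 3 := by
  obtain ⟨d, c, hd, hc, h1, h2⟩ := Nat.sq_mul_squarefree_of_pos (Nat.pos_of_ne_zero hq)
  have hdc : d ∣ c := by
    rw [← Nat.prod_primeFactors_of_squarefree h2]
    refine Finset.prod_primes_dvd _ (fun p hp => (Nat.prime_of_mem_primeFactors hp).prime)
      (fun p hp => ?_)
    have hp1 := Nat.prime_of_mem_primeFactors hp
    have hp2 := Nat.dvd_of_mem_primeFactors hp
    by_contra hpc
    have h3 : p ^ 2 ∣ q := h p hp1 (h1 ▸ Dvd.dvd.mul_left hp2 _)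
    rw [← h1] at h3
    have h4 : Nat.Coprime (p ^ 2) (c ^ 2) :=
      Nat.Coprime.pow _ _ ((Nat.Prime.coprime_iff_not_dvd hp1).2 hpc)
    have h5 : p ^ 2 ∣ d := h4.dvd_of_dvd_mul_left h3
    have h6 := h2 p (by rwa [pow_two] at h5)
    exact hp1.one_lt.ne' (Nat.isUnit_iff.1 h6)
  obtain ⟨a, ha⟩ := hdc
  refine ⟨a, d, ?_, hd, ?_⟩
  · rcases Nat.eq_zero_or_pos a with h0 | h0
    · subst h0; simp at ha; omega
    · exact h0
  · rw [← h1, ha]; ring

lemma decomp (m : ℕ) (hm : m ≠ 0) : ∃ a b : ℕ, 0 < a ∧ 0 < b ∧ m = Q1 m * a ^ 2 * b ^ 3 := by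
  have h := Q1_mul_Q2 m hm
  have h2 : Q2 m ≠ 0 := by
    rintro h0; rw [h0] at h; simp at h; exact hm h.symm
  obtain ⟨a, b, ha, hb, hab⟩ := exists_ab (Q2 m) h2 (Q2_powerful m)
  refine ⟨a, b, ha, hb, ?_⟩
  rw [mul_assoc, ← hab, h]

lemma Q1_pos (m : ℕ) : 0 < Q1 m := by
  refine Finset.prod_pos (fun p hp => ?_)
  exact (Nat.prime_of_mem_primeFactors (Finset.mem_filter.1 hp).1).pos

lemma Q1_dvd (l n : ℕ) (hn : 1 ≤ n) :
    ∏ i ∈ range (l + 1), Q1 (n + i) ∣
      (l.factorial) ^ (l + 1) * Q1 (∏ i ∈ range (l + 1), (n + i)) := by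
  have key : ∀ i ∈ range (l + 1), ∀ p ∈ (n + i).primeFactors.filter
      (fun p => (n + i).factorization p = 1), l < p →
      p ∈ (∏ i ∈ range (l + 1), (n + i)).primeFactors.filter
        (fun p => (∏ i ∈ range (l + 1), (n + i)).factorization p = 1) := by
    intro i hi p hp hlp
    obtain ⟨hp1, hp2⟩ := Finset.mem_filter.1 hp
    have hpp := Nat.prime_of_mem_primeFactors hp1
    have hpd := Nat.dvd_of_mem_primeFactors hp1
    have hP0 : (∏ i ∈ range (l + 1), (n + i)) ≠ 0 :=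
      Finset.prod_ne_zero_iff.2 (fun j _ => by omega)
    refine Finset.mem_filter.2 ⟨Nat.mem_primeFactors.2 ⟨hpp,
      dvd_trans hpd (Finset.dvd_prod_of_mem (fun i => n + i) hi), hP0⟩, ?_⟩
    rw [Nat.factorization_prod (fun j _ => by omega), Finsupp.finsetSum_apply,
      Finset.sum_eq_single i, hp2]
    · intro j hj hji
      refine Nat.factorization_eq_zero_of_not_dvd (fun hd => ?_)
      have hi' := Finset.mem_range.1 hi
      have hj' := Finset.mem_range.1 hj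
      rcases lt_or_gt_of_ne hji with hlt | hlt
      · have h3 : p ∣ (n + i) - (n + j) := Nat.dvd_sub hpd hd
        have h4 := Nat.le_of_dvd (by omega) h3
        omega
      · have h3 : p ∣ (n + j) - (n + i) := Nat.dvd_sub hd hpd
        have h4 := Nat.le_of_dvd (by omega) h3
        omega
    · intro h; exact absurd hi h
  have small : ∀ m : ℕ, ∏ p ∈ (m.primeFactors.filter (fun p => m.factorization p = 1)).filter
      (fun p => p ≤ l), p ∣ l.factorial := by
    intro m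
    refine Finset.prod_primes_dvd _ (fun p hp => ?_) (fun p hp => ?_)
    · exact (Nat.prime_of_mem_primeFactors (Finset.mem_filter.1 (Finset.mem_filter.1 hp).1).1).prime
    · exact Nat.dvd_factorial (Nat.prime_of_mem_primeFactors
        (Finset.mem_filter.1 (Finset.mem_filter.1 hp).1).1).pos (Finset.mem_filter.1 hp).2
  have e : ∀ m : ℕ, Q1 m = (∏ p ∈ (m.primeFactors.filter
      (fun p => m.factorization p = 1)).filter (fun p => p ≤ l), p) *
      ∏ p ∈ (m.primeFactors.filter (fun p => m.factorization p = 1)).filter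
        (fun p => ¬ p ≤ l), p := by
    intro m
    rw [Finset.prod_filter_mul_prod_filter_not]; rfl
  have e2 : ∏ i ∈ range (l + 1), Q1 (n + i) =
      (∏ i ∈ range (l + 1), ∏ p ∈ ((n + i).primeFactors.filter
        (fun p => (n + i).factorization p = 1)).filter (fun p => p ≤ l), p) *
      ∏ i ∈ range (l + 1), ∏ p ∈ ((n + i).primeFactors.filter
        (fun p => (n + i).factorization p = 1)).filter (fun p => ¬ p ≤ l), p := by
    rw [← Finset.prod_mul_distrib]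
    exact Finset.prod_congr rfl (fun i _ => e (n + i))
  rw [e2]
  refine mul_dvd_mul ?_ ?_
  · have : (l.factorial) ^ (l + 1) = ∏ _i ∈ range (l + 1), l.factorial := by simp
    rw [this]
    exact Finset.prod_dvd_prod_of_dvd _ _ (fun i _ => small (n + i))
  rw [← Finset.prod_biUnion]
  · refine Finset.prod_dvd_prod_of_subset _ _ _ (fun p hp => ?_)
    obtain ⟨i, hi, hp⟩ := Finset.mem_biUnion.1 hp
    obtain ⟨h1, h2⟩ := Finset.mem_filter.1 hp
    exact key i hi p h1 (by omega)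
  · intro i hi j hj hij
    rw [Function.onFun, Finset.disjoint_left]
    intro p hp hp'
    have hi' := Finset.mem_range.1 (Finset.mem_coe.1 hi)
    have hj' := Finset.mem_range.1 (Finset.mem_coe.1 hj)
    have h1 := Nat.dvd_of_mem_primeFactors (Finset.mem_filter.1 (Finset.mem_filter.1 hp).1).1
    have h2 := Nat.dvd_of_mem_primeFactors (Finset.mem_filter.1 (Finset.mem_filter.1 hp').1).1
    have h3 := (Finset.mem_filter.1 hp).2
    rcases lt_or_gt_of_ne hij with hlt | hlt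
    · have h4 : p ∣ (n + j) - (n + i) := Nat.dvd_sub h2 h1
      have h5 := Nat.le_of_dvd (by omega) h4
      omega
    · have h4 : p ∣ (n + i) - (n + j) := Nat.dvd_sub h1 h2
      have h5 := Nat.le_of_dvd (by omega) h4
      omega

lemma Q1_bound (l n : ℕ) (c : ℝ) (hc : 0 < c) (hn : 1 ≤ n)
    (h : c * (n : ℝ) ^ (l + 1) ≤ (Q2 (∏ i ∈ range (l + 1), (n + i)) : ℝ)) :
    ((∏ i ∈ range (l + 1), Q1 (n + i) : ℕ) : ℝ) ≤
      (((l + 1).factorial : ℝ)) ^ (l + 1) / c := by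
  set P := ∏ i ∈ range (l + 1), (n + i) with hP
  have hP0 : P ≠ 0 := Finset.prod_ne_zero_iff.2 (fun j _ => by omega)
  have h1 := Q1_mul_Q2 P hP0
  have h2 : P ≤ ((l + 1) * n) ^ (l + 1) := by
    calc P ≤ ∏ _i ∈ range (l + 1), ((l + 1) * n) := by
          refine Finset.prod_le_prod' (fun i hi => ?_)
          have := Finset.mem_range.1 hi
          nlinarith
      _ = _ := by simp
  have hn0 : (0 : ℝ) < (n : ℝ) ^ (l + 1) := by
    have : (0 : ℝ) < n := by exact_mod_cast hn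
    positivity
  have h3 : (Q1 P : ℝ) ≤ ((l : ℝ) + 1) ^ (l + 1) / c := by
    rw [le_div_iff₀ hc]
    have h4 : (Q1 P : ℝ) * c * (n : ℝ) ^ (l + 1) ≤ ((l : ℝ) + 1) ^ (l + 1) * (n : ℝ) ^ (l + 1) := by
      calc (Q1 P : ℝ) * c * (n : ℝ) ^ (l + 1) = (Q1 P : ℝ) * (c * (n : ℝ) ^ (l + 1)) := by ring
        _ ≤ (Q1 P : ℝ) * (Q2 P : ℝ) := by gcongr
        _ = (P : ℝ) := by exact_mod_cast h1
        _ ≤ ((((l + 1) * n) ^ (l + 1) : ℕ) : ℝ) := by exact_mod_cast h2
        _ = _ := by push_cast; rw [mul_pow]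
    exact le_of_mul_le_mul_right h4 hn0
  have h5 := Nat.le_of_dvd (by
    have := Q1_pos P
    have := Nat.factorial_pos l
    positivity) (Q1_dvd l n hn)
  have h6 : ((∏ i ∈ range (l + 1), Q1 (n + i) : ℕ) : ℝ) ≤
      ((l.factorial : ℝ)) ^ (l + 1) * (Q1 P : ℝ) := by exact_mod_cast h5
  refine h6.trans ?_
  have h7 : (((l + 1).factorial : ℝ)) ^ (l + 1) = (l.factorial : ℝ) ^ (l + 1) * ((l : ℝ) + 1) ^ (l + 1) := by
    rw [Nat.factorial_succ]; push_cast; rw [mul_pow]; ring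
  rw [h7, mul_div_assoc]
  have : (0 : ℝ) ≤ (l.factorial : ℝ) ^ (l + 1) := by positivity
  exact mul_le_mul_of_nonneg_left h3 this

/-- two members of a family have a small product -/
lemma two_small (l : ℕ) (hl : 1 ≤ l) (f : ℕ → ℝ) (hf : ∀ i, 0 < f i) :
    ∃ i ∈ range (l + 1), ∃ j ∈ range (l + 1), i < j ∧
      (f i * f j) ^ (l + 1) ≤ (∏ i ∈ range (l + 1), f i) ^ 2 := by
  obtain ⟨i, hi, hi'⟩ := Finset.exists_min_image (range (l + 1)) f ⟨0, by simp⟩
  have hne : ((range (l + 1)).erase i).Nonempty := by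
    rw [← Finset.card_pos, Finset.card_erase_of_mem hi]; simp; omega
  obtain ⟨j, hj, hj'⟩ := Finset.exists_min_image ((range (l + 1)).erase i) f hne
  obtain ⟨hji, hjr⟩ := Finset.mem_erase.1 hj
  have h1 : ∏ i ∈ range (l + 1), f i = f i * ∏ k ∈ (range (l + 1)).erase i, f k :=
    (Finset.mul_prod_erase _ _ hi).symm
  have h2 : (f j) ^ l ≤ ∏ k ∈ (range (l + 1)).erase i, f k := by
    have : (f j) ^ l = ∏ _k ∈ (range (l + 1)).erase i, f j := by
      rw [Finset.prod_const, Finset.card_erase_of_mem hi]; simp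
    rw [this]
    exact Finset.prod_le_prod (fun k _ => (hf j).le) (fun k hk => hj' k hk)
  have h3 : f i ≤ f j := hi' j hjr
  have h4 : (f i * f j) ^ (l + 1) ≤ (∏ i ∈ range (l + 1), f i) ^ 2 := by
    rw [h1]
    have h5 : (f i * (f j) ^ l) ^ 2 ≤ (f i * ∏ k ∈ (range (l + 1)).erase i, f k) ^ 2 := by
      refine pow_le_pow_left₀ ?_ ?_ 2
      · have := hf i; have := hf j; positivity
      · exact mul_le_mul_of_nonneg_left h2 (hf i).le
    refine le_trans ?_ h5
    obtain ⟨l', rfl⟩ : ∃ l', l = l' + 1 := ⟨l - 1, by omega⟩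
    have h6 : (f i) ^ l' ≤ (f j) ^ l' := pow_le_pow_left₀ (hf i).le h3 _
    have h7 : 0 ≤ (f i) ^ 2 * (f j) ^ (l' + 2) := by
      have := hf i; have := hf j; positivity
    calc (f i * f j) ^ (l' + 1 + 1) = ((f i) ^ 2 * (f j) ^ (l' + 2)) * (f i) ^ l' := by ring
      _ ≤ ((f i) ^ 2 * (f j) ^ (l' + 2)) * (f j) ^ l' := mul_le_mul_of_nonneg_left h6 h7
      _ = _ := by ring
  rcases lt_or_gt_of_ne hji with h | h
  · exact ⟨j, hjr, i, hi, h, by rwa [mul_comm (f j) (f i)]⟩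
  · exact ⟨i, hi, j, hjr, h, h4⟩

lemma growth (A A' x1 y1 x2 y2 h : ℤ) (hA : 1 ≤ A) (hA' : 1 ≤ A') (hx1 : 1 ≤ x1)
    (hy1 : 1 ≤ y1) (hy2 : 1 ≤ y2) (hh : 1 ≤ h)
    (h1 : A * x1 ^ 2 + h = A' * y1 ^ 2) (h2 : A * x2 ^ 2 + h = A' * y2 ^ 2) (h12 : x1 < x2)
    (hx : h ∣ x2 - x1) (hyd : h ∣ y2 - y1) :
    2 * x1 ≤ x2 := by
  have hv : x1 * y2 < x2 * y1 := by
    by_contra hc
    push Not at hc
    have h3 : (x2 * y1) ^ 2 ≤ (x1 * y2) ^ 2 := pow_le_pow_left₀ (by nlinarith) hc 2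
    have h4 : A' * (x2 * y1) ^ 2 ≤ A' * (x1 * y2) ^ 2 :=
      mul_le_mul_of_nonneg_left h3 (by linarith)
    have h5 : A' * (x2 * y1) ^ 2 = x2 ^ 2 * (A * x1 ^ 2 + h) := by rw [h1]; ring
    have h6 : A' * (x1 * y2) ^ 2 = x1 ^ 2 * (A * x2 ^ 2 + h) := by rw [h2]; ring
    have h7 : x1 ^ 2 < x2 ^ 2 := pow_lt_pow_left₀ h12 (by linarith) (by norm_num)
    nlinarith
  have hu : A * x1 * x2 < A' * y1 * y2 := by
    by_contra hc
    push Not at hc
    have h0 : 0 ≤ A' * y1 * y2 := by positivity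
    have h3 : (A' * y1 * y2) ^ 2 ≤ (A * x1 * x2) ^ 2 := pow_le_pow_left₀ h0 hc 2
    have h4 : (A' * y1 * y2) ^ 2 = (A * x1 ^ 2 + h) * (A * x2 ^ 2 + h) := by
      rw [h1, h2]; ring
    rw [h4] at h3
    have h5 : 0 ≤ h * (A * x1 ^ 2) := by positivity
    have h6 : 0 ≤ h * (A * x2 ^ 2) := by positivity
    nlinarith
  have hid : h * x2 = (A' * y1 * y2 - A * x1 * x2) * x1 + (x2 * y1 - x1 * y2) * (A' * y1) := by
    have : (A' * y1 * y2 - A * x1 * x2) * x1 + (x2 * y1 - x1 * y2) * (A' * y1)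
        = x2 * (A' * y1 ^ 2 - A * x1 ^ 2) := by ring
    rw [this, ← h1]; ring
  have hy : x1 ≤ A' * y1 := by
    by_contra hc
    push Not at hc
    have h0 : 0 ≤ A' * y1 := by positivity
    have h3 : (A' * y1) ^ 2 < x1 ^ 2 := pow_lt_pow_left₀ hc h0 (by norm_num)
    have h4 : (A' * y1) ^ 2 = A' * (A * x1 ^ 2 + h) := by rw [h1]; ring
    have h5 : 0 ≤ (A - 1) * x1 ^ 2 := mul_nonneg (by linarith) (by positivity)
    have h6 : 0 ≤ (A' - 1) * (A * x1 ^ 2 + h) := mul_nonneg (by linarith) (by positivity)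
    nlinarith
  have hvd : h ∣ x2 * y1 - x1 * y2 := by
    have : x2 * y1 - x1 * y2 = (x2 - x1) * y1 - x1 * (y2 - y1) := by ring
    rw [this]
    exact dvd_sub (Dvd.dvd.mul_right hx _) (Dvd.dvd.mul_left hyd _)
  have hud : h ∣ A' * y1 * y2 - A * x1 * x2 := by
    have : A' * y1 * y2 - A * x1 * x2 = A' * y1 * (y2 - y1) - A * x1 * (x2 - x1) + h := by
      linear_combination -h1
    rw [this]
    exact dvd_add (dvd_sub (Dvd.dvd.mul_left hyd _) (Dvd.dvd.mul_left hx _)) (dvd_refl _)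
  have hv' : h ≤ x2 * y1 - x1 * y2 := Int.le_of_dvd (by linarith) hvd
  have hu' : h ≤ A' * y1 * y2 - A * x1 * x2 := Int.le_of_dvd (by linarith) hud
  have h7 : h * x1 ≤ (A' * y1 * y2 - A * x1 * x2) * x1 :=
    mul_le_mul_of_nonneg_right hu' (by linarith)
  have h0 : 0 ≤ A' * y1 := by positivity
  have h8 : h * (A' * y1) ≤ (x2 * y1 - x1 * y2) * (A' * y1) :=
    mul_le_mul_of_nonneg_right hv' h0
  have h9 : h * (x1 + A' * y1) ≤ h * x2 := by rw [hid]; linarith
  have h10 := le_of_mul_le_mul_left h9 (by linarith)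
  linarith

lemma card_log (S : Finset ℕ) (X : ℕ) (h1 : ∀ n ∈ S, 1 ≤ n ∧ n ≤ X)
    (h2 : ∀ m ∈ S, ∀ n ∈ S, m < n → 2 * m ≤ n) :
    S.card ≤ Nat.log 2 X + 1 := by
  have aux : ∀ m ∈ S, ∀ n ∈ S, m < n → Nat.log 2 m < Nat.log 2 n := by
    intro m hm n hn h
    have h3 := h2 m hm n hn h
    have h4 : Nat.log 2 m + 1 ≤ Nat.log 2 n := by
      rw [← Nat.log_mul_base (by norm_num) (by have := (h1 m hm).1; omega)]
      exact Nat.log_mono_right (by omega)
    omega
  have hinj : Set.InjOn (Nat.log 2) (S : Set ℕ) := by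
    intro m hm n hn hmn
    by_contra hne
    rcases lt_or_gt_of_ne hne with h | h
    · have := aux m hm n hn h; omega
    · have := aux n hn m hm h; omega
  calc S.card = (S.image (Nat.log 2)).card := (Finset.card_image_of_injOn hinj).symm
    _ ≤ (range (Nat.log 2 X + 1)).card := by
        refine Finset.card_le_card (fun t ht => ?_)
        obtain ⟨n, hn, rfl⟩ := Finset.mem_image.1 ht
        exact Finset.mem_range.2 (Nat.lt_succ_of_le (Nat.log_mono_right (h1 n hn).2))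
    _ = _ := by simp

/-- number of `n ≤ X` with `n = A x²`, `n + h = A' y²`. -/
lemma card_pell (A A' X h : ℕ) (hA : 1 ≤ A) (hA' : 1 ≤ A') (hh : 1 ≤ h) (S : Finset ℕ)
    (hS : ∀ n ∈ S, 1 ≤ n ∧ n ≤ X ∧ ∃ x y : ℕ, n = A * x ^ 2 ∧ n + h = A' * y ^ 2) :
    S.card ≤ (Nat.log 2 X + 1) * h ^ 2 := by
  classical
  have hS' : ∀ n : ℕ, ∃ z : ℕ × ℕ, n ∈ S → n = A * z.1 ^ 2 ∧ n + h = A' * z.2 ^ 2 := by
    intro n
    by_cases hn : n ∈ S
    · obtain ⟨_, _, x, y, h1, h2⟩ := hS n hn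
      exact ⟨(x, y), fun _ => ⟨h1, h2⟩⟩
    · exact ⟨(0, 0), fun h => absurd h hn⟩
  choose z hz using hS'
  set f : ℕ → ℕ × ℕ := fun n => ((z n).1 % h, (z n).2 % h) with hf
  have h1 : S.card ≤ (Nat.log 2 X + 1) * (S.image f).card := by
    refine Finset.card_le_mul_card_image _ _ (fun a ha => ?_)
    refine card_log _ X (fun n hn => ?_) ?_
    · exact ⟨(hS n (Finset.mem_filter.1 hn).1).1, (hS n (Finset.mem_filter.1 hn).1).2.1⟩
    intro m hm n hn hmn
    obtain ⟨hmS, hma⟩ := Finset.mem_filter.1 hm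
    obtain ⟨hnS, hna⟩ := Finset.mem_filter.1 hn
    obtain ⟨hx1, hy1⟩ := hz m hmS
    obtain ⟨hx2, hy2⟩ := hz n hnS
    have hm1 := (hS m hmS).1
    have hfe : f n = f m := by rw [hma, hna]
    have hfe1 : (z n).1 % h = (z m).1 % h := congrArg Prod.fst hfe
    have hfe2 : (z n).2 % h = (z m).2 % h := congrArg Prod.snd hfe
    set x1 := (z m).1
    set y1 := (z m).2
    set x2 := (z n).1
    set y2 := (z n).2
    have a1 : 1 ≤ x1 := by
      rcases Nat.eq_zero_or_pos x1 with h | h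
      · rw [h] at hx1; simp at hx1; omega
      · exact h
    have b1 : 1 ≤ y1 := by
      rcases Nat.eq_zero_or_pos y1 with h | h
      · rw [h] at hy1; simp at hy1; omega
      · exact h
    have b2 : 1 ≤ y2 := by
      rcases Nat.eq_zero_or_pos y2 with h | h
      · rw [h] at hy2; simp at hy2; omega
      · exact h
    have a2 : x1 < x2 := by
      by_contra hc
      push Not at hc
      have : A * x2 ^ 2 ≤ A * x1 ^ 2 := Nat.mul_le_mul_left _ (Nat.pow_le_pow_left hc 2)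
      omega
    have dx : (h : ℤ) ∣ (x2 : ℤ) - x1 := by
      have : (x1 : ℤ) ≡ x2 [ZMOD h] := by
        exact_mod_cast (Int.natCast_modEq_iff.2 hfe1.symm)
      exact this.dvd
    have dy : (h : ℤ) ∣ (y2 : ℤ) - y1 := by
      have : (y1 : ℤ) ≡ y2 [ZMOD h] := by
        exact_mod_cast (Int.natCast_modEq_iff.2 hfe2.symm)
      exact this.dvd
    have hg := growth (A : ℤ) (A' : ℤ) x1 y1 x2 y2 h (by exact_mod_cast hA)
      (by exact_mod_cast hA')
      (by exact_mod_cast a1) (by exact_mod_cast b1) (by exact_mod_cast b2)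
      (by exact_mod_cast hh)
      (by exact_mod_cast (by omega : A * x1 ^ 2 + h = A' * y1 ^ 2))
      (by exact_mod_cast (by omega : A * x2 ^ 2 + h = A' * y2 ^ 2)) (by exact_mod_cast a2) dx dy
    have h' : 2 * x1 ≤ x2 := by exact_mod_cast hg
    have h3 : (2 * x1) ^ 2 ≤ x2 ^ 2 := Nat.pow_le_pow_left h' 2
    have h4 : A * (2 * x1) ^ 2 ≤ A * x2 ^ 2 := Nat.mul_le_mul_left _ h3
    have h5 : A * (2 * x1) ^ 2 = 4 * (A * x1 ^ 2) := by ring
    omega
  refine h1.trans (Nat.mul_le_mul_left _ ?_)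
  calc (S.image f).card ≤ (range h ×ˢ range h).card := by
        refine Finset.card_le_card (fun t ht => ?_)
        obtain ⟨n, hn, rfl⟩ := Finset.mem_image.1 ht
        exact Finset.mem_product.2 ⟨Finset.mem_range.2 (Nat.mod_lt _ hh),
          Finset.mem_range.2 (Nat.mod_lt _ hh)⟩
    _ = h ^ 2 := by simp [pow_two]

end Pool.Agent.SE9
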