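import Mathlib

set_option autoImplicit false

open Finset

namespace Pool.Agent.SE9

private theorem stp (N : ℕ) :
    1 / √((N : ℝ) + 1) ≤ 2 * √((N : ℝ) + 1) - 2 * √(N : ℝ) ∧
    (1 ≤ N → 1 / (((N : ℝ) + 1) * √((N : ℝ) + 1)) ≤ 2 / √(N : ℝ) - 2 / √((N : ℝ) + 1)) := by
  have hN : (0 : ℝ) ≤ N := Nat.cast_nonneg N
  obtain ⟨s, hs⟩ : ∃ s, s = √(N : ℝ) := ⟨_, rfl⟩
  obtain ⟨t, ht⟩ : ∃ t, t = √((N : ℝ) + 1) := ⟨_, rfl⟩
  have s2 : s ^ 2 = N := by rw [hs, Real.sq_sqrt hN]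
  have t2 : t ^ 2 = (N : ℝ) + 1 := by rw [ht, Real.sq_sqrt (by linarith)]
  have s0 : 0 ≤ s := hs ▸ Real.sqrt_nonneg _
  have t0 : 0 < t := ht ▸ Real.sqrt_pos.2 (by linarith)
  have hst : s ≤ t := by
    rw [hs, ht]
    exact Real.sqrt_le_sqrt (by linarith)
  have e : (t - s) * (t + s) = 1 := by nlinarith
  have e2 : 1 ≤ 2 * t * (t - s) := by nlinarith
  rw [← hs, ← ht]
  constructor
  · rw [div_le_iff₀ t0]
    nlinarith
  · intro h1
    have hs1 : 0 < s := by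
      rw [hs]
      exact Real.sqrt_pos.2 (by exact_mod_cast h1)
    rw [← t2, div_sub_div _ _ hs1.ne' t0.ne', div_le_div_iff₀ (by positivity) (by positivity)]
    have e3 : t ≤ 2 * (t - s) * t ^ 2 := by nlinarith
    have e4 : s * t ≤ 2 * (t - s) * t ^ 2 * t := mul_le_mul_of_nonneg_right (hst.trans e3) t0.le
    nlinarith

private theorem tel (B : ℕ) (hB : 1 ≤ B) (N : ℕ) (hN : B ≤ N) :
    ∑ b ∈ Ioc B N, 1 / ((b : ℝ) * √(b : ℝ)) ≤ 2 / √(B : ℝ) - 2 / √(N : ℝ) := by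
  induction N, hN using Nat.le_induction with
  | base => simp
  | succ N hN ih =>
    rw [Finset.sum_Ioc_succ_top hN]
    have h := (stp N).2 (hB.trans hN)
    push_cast at h ⊢
    linarith

/-- b runs over B < b ≤ Y (b ≤ m ≤ Y); for fixed b the a are at most √Y / (√k b √b);
the sum of 1/(b √b) over b > B is at most 2/√B (1/(b√b) ≤ 2(1/√(b-1) - 1/√b), telescoping). -/
theorem tail (Y k B : ℕ) (hk : 1 ≤ k) (hB : 1 ≤ B) (S : Finset ℕ)
    (hS : ∀ m ∈ S, 1 ≤ m ∧ m ≤ Y ∧ ∃ a b : ℕ, 1 ≤ a ∧ B < b ∧ m = k * a ^ 2 * b ^ 3) :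
    (S.card : ℝ) ≤ 2 * √(Y : ℝ) / (√(k : ℝ) * √(B : ℝ)) := by
  have hk' : (0 : ℝ) < √(k : ℝ) := Real.sqrt_pos.2 (by exact_mod_cast hk)
  have hB' : (0 : ℝ) < √(B : ℝ) := Real.sqrt_pos.2 (by exact_mod_cast hB)
  set A : ℕ → ℕ := fun b => ⌊√(Y : ℝ) / (√(k : ℝ) * ((b : ℝ) * √(b : ℝ)))⌋₊ with hA
  have hsub : S ⊆ (Ioc B Y).biUnion (fun b => (Icc 1 (A b)).image (fun a => k * a ^ 2 * b ^ 3)) := by
    intro m hm
    obtain ⟨h1, h2, a, b, ha, hb, rfl⟩ := hS m hm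
    rw [Finset.mem_biUnion]
    have hb1 : 1 ≤ b := by omega
    refine ⟨b, Finset.mem_Ioc.2 ⟨hb, ?_⟩, Finset.mem_image.2 ⟨a, Finset.mem_Icc.2 ⟨ha, ?_⟩, rfl⟩⟩
    · refine le_trans ?_ h2
      calc b = 1 * 1 ^ 2 * b ^ 1 := by ring
        _ ≤ k * a ^ 2 * b ^ 3 :=
          Nat.mul_le_mul (Nat.mul_le_mul hk (Nat.pow_le_pow_left ha 2))
            (Nat.pow_le_pow_right hb1 (by norm_num))
    · rw [hA]
      apply Nat.le_floor
      have hb' : (0 : ℝ) < b := by exact_mod_cast hb1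
      rw [le_div_iff₀ (by positivity)]
      apply Real.le_sqrt_of_sq_le
      have e : ((a : ℝ) * (√(k : ℝ) * ((b : ℝ) * √(b : ℝ)))) ^ 2 =
          (k : ℝ) * (a : ℝ) ^ 2 * (b : ℝ) ^ 3 := by
        have e1 : √(k : ℝ) ^ 2 = k := Real.sq_sqrt (Nat.cast_nonneg k)
        have e2 : √(b : ℝ) ^ 2 = b := Real.sq_sqrt (Nat.cast_nonneg b)
        calc ((a : ℝ) * (√(k : ℝ) * ((b : ℝ) * √(b : ℝ)))) ^ 2
            = (a : ℝ) ^ 2 * (√(k : ℝ) ^ 2 * ((b : ℝ) ^ 2 * √(b : ℝ) ^ 2)) := by ring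
          _ = (k : ℝ) * (a : ℝ) ^ 2 * (b : ℝ) ^ 3 := by rw [e1, e2]; ring
      rw [e]
      exact_mod_cast h2
  rcases Nat.lt_or_ge Y B with hYB | hYB
  · have : S = ∅ := by
      rw [Finset.Ioc_eq_empty (by omega), Finset.biUnion_empty] at hsub
      exact Finset.subset_empty.1 hsub
    rw [this, Finset.card_empty, Nat.cast_zero]
    positivity
  calc (S.card : ℝ) ≤ ∑ b ∈ Ioc B Y, (A b : ℝ) := by
        have h1 := (Finset.card_le_card hsub).trans Finset.card_biUnion_le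
        have h2 : ∑ b ∈ Ioc B Y, ((Icc 1 (A b)).image (fun a => k * a ^ 2 * b ^ 3)).card ≤
            ∑ b ∈ Ioc B Y, A b := Finset.sum_le_sum fun b _ => by
          simpa using Finset.card_image_le (s := Icc 1 (A b)) (f := fun a => k * a ^ 2 * b ^ 3)
        exact_mod_cast h1.trans h2
    _ ≤ ∑ b ∈ Ioc B Y, √(Y : ℝ) / √(k : ℝ) * (1 / ((b : ℝ) * √(b : ℝ))) := by
        refine Finset.sum_le_sum fun b _ => ?_
        refine (Nat.floor_le (by positivity)).trans (le_of_eq ?_)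
        rw [div_mul_div_comm, mul_one]
    _ = √(Y : ℝ) / √(k : ℝ) * ∑ b ∈ Ioc B Y, 1 / ((b : ℝ) * √(b : ℝ)) := by
        rw [Finset.mul_sum]
    _ ≤ √(Y : ℝ) / √(k : ℝ) * (2 / √(B : ℝ)) := by
        refine mul_le_mul_of_nonneg_left ((tel B hB Y hYB).trans ?_) (by positivity)
        have : 0 ≤ 2 / √(Y : ℝ) := by positivity
        linarith
    _ = 2 * √(Y : ℝ) / (√(k : ℝ) * √(B : ℝ)) := by
        rw [div_mul_div_comm]
        ring

theorem sumk (K : ℕ) : ∑ k ∈ Icc 1 K, 1 / √(k : ℝ) ≤ 2 * √(K : ℝ) := by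
  induction K with
  | zero => simp
  | succ K ih =>
    rw [Finset.sum_Icc_succ_top (by omega)]
    have h := (stp K).1
    push_cast at h ⊢
    linarith

/-- harmonic_le_one_add_log -/
theorem pairs (K : ℕ) :
    (((Icc 1 K ×ˢ Icc 1 K).filter (fun z : ℕ × ℕ => z.1 * z.2 ≤ K)).card : ℝ)
      ≤ K * (1 + Real.log K) := by
  have h1 : ((Icc 1 K ×ˢ Icc 1 K).filter (fun z : ℕ × ℕ => z.1 * z.2 ≤ K)).card =
      ∑ i ∈ Icc 1 K, ((Icc 1 K).filter (fun j => i * j ≤ K)).card := by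
    rw [Finset.card_filter, Finset.sum_product]
    exact Finset.sum_congr rfl fun i _ => (Finset.card_filter _ _).symm
  have h2 : ∀ i ∈ Icc 1 K, (((Icc 1 K).filter (fun j => i * j ≤ K)).card : ℝ) ≤
      K * ((i : ℝ))⁻¹ := by
    intro i hi
    have hi1 := (Finset.mem_Icc.1 hi).1
    have h3 : (Icc 1 K).filter (fun j => i * j ≤ K) ⊆ Icc 1 (K / i) := by
      intro j hj
      obtain ⟨hj1, hj2⟩ := Finset.mem_filter.1 hj
      refine Finset.mem_Icc.2 ⟨(Finset.mem_Icc.1 hj1).1, ?_⟩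
      rw [Nat.le_div_iff_mul_le (by omega), mul_comm]
      exact hj2
    have h4 := Finset.card_le_card h3
    rw [Nat.card_Icc, Nat.add_sub_cancel] at h4
    calc (((Icc 1 K).filter (fun j => i * j ≤ K)).card : ℝ) ≤ ((K / i : ℕ) : ℝ) := by
          exact_mod_cast h4
      _ ≤ (K : ℝ) / i := Nat.cast_div_le
      _ = K * ((i : ℝ))⁻¹ := div_eq_mul_inv _ _
  have h5 : ((harmonic K : ℚ) : ℝ) = ∑ i ∈ Icc 1 K, ((i : ℝ))⁻¹ := by
    rw [harmonic_eq_sum_Icc]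
    push_cast
    rfl
  rw [h1]
  push_cast
  calc ∑ i ∈ Icc 1 K, (((Icc 1 K).filter (fun j => i * j ≤ K)).card : ℝ)
      ≤ ∑ i ∈ Icc 1 K, K * ((i : ℝ))⁻¹ := Finset.sum_le_sum h2
    _ = K * ((harmonic K : ℚ) : ℝ) := by rw [h5, Finset.mul_sum]
    _ ≤ K * (1 + Real.log K) :=
        mul_le_mul_of_nonneg_left (harmonic_le_one_add_log K) (Nat.cast_nonneg K)

end Pool.Agent.SE9
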