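import Mathlib
import Pool.Agent.SE9.Main
import Pool.Agent.SE9.Tail

set_option autoImplicit false

open Finset

namespace Pool.Agent.SE9

lemma exists_root (x : ℝ) (hx : 0 < x) : ∃ y : ℝ, 0 < y ∧ x = y ^ 10 ∧
    x ^ (2 / 5 : ℝ) = y ^ 4 ∧ x ^ (3 / 5 : ℝ) = y ^ 6 := by
  refine ⟨x ^ (1 / 10 : ℝ), by positivity, ?_, ?_, ?_⟩
  · rw [← Real.rpow_natCast, ← Real.rpow_mul hx.le]
    norm_num
  · rw [← Real.rpow_natCast, ← Real.rpow_mul hx.le]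
    norm_num
  · rw [← Real.rpow_natCast, ← Real.rpow_mul hx.le]
    norm_num

/-- all m with a large b, summed over k -/
lemma tail_sum (Y K B : ℕ) (hB : 1 ≤ B) (T : ℕ → Finset ℕ)
    (hT : ∀ k ∈ Icc 1 K, ∀ m ∈ T k, 1 ≤ m ∧ m ≤ Y ∧
      ∃ a b : ℕ, 1 ≤ a ∧ B < b ∧ m = k * a ^ 2 * b ^ 3) :
    (∑ k ∈ Icc 1 K, ((T k).card : ℝ)) ≤ 4 * √(Y : ℝ) * √(K : ℝ) / √(B : ℝ) := by
  have h1 : ∀ k ∈ Icc 1 K, ((T k).card : ℝ) ≤ (2 * √(Y : ℝ) / √(B : ℝ)) * (1 / √(k : ℝ)) := by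
    intro k hk
    refine (tail Y k B (Finset.mem_Icc.1 hk).1 hB (T k) (hT k hk)).trans (le_of_eq ?_)
    rw [div_mul_div_comm, mul_one, mul_comm (√(B : ℝ)) (√(k : ℝ))]
  calc (∑ k ∈ Icc 1 K, ((T k).card : ℝ))
      ≤ ∑ k ∈ Icc 1 K, (2 * √(Y : ℝ) / √(B : ℝ)) * (1 / √(k : ℝ)) := Finset.sum_le_sum h1
    _ = (2 * √(Y : ℝ) / √(B : ℝ)) * ∑ k ∈ Icc 1 K, (1 / √(k : ℝ)) := by
        rw [Finset.mul_sum]
    _ ≤ (2 * √(Y : ℝ) / √(B : ℝ)) * (2 * √(K : ℝ)) :=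
        mul_le_mul_of_nonneg_left (sumk K) (by positivity)
    _ = 4 * √(Y : ℝ) * √(K : ℝ) / √(B : ℝ) := by ring

/-- If R > Y: S.card ≤ Y = Y^(3/5) Y^(2/5). Otherwise K = ⌊R⌋₊ ≥ 1, B = ⌈(Y/R)^(1/5)⌉₊, so
1 ≤ B ≤ 2 (Y/R)^(1/5). Every m in S has b ≤ B and b' ≤ B (card_pell with A = k b^3,
A' = k' b'^3, over the pairs (k,k') with k k' ≤ K: at most K (1+log K) B^2 (log2 Y + 1) h^2), or
b > B (tail, all k ≤ K, sumk: 4 √(Y K/B)), or b' > B (the same for m + h). Sum: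
4 R^(3/5) Y^(2/5) (1+log R)(log2 Y+1) h^2 + 8 √(Y R) / √((Y/R)^(1/5)). -/
theorem count (h : ℕ) (hh : 1 ≤ h) (Y : ℕ) (R : ℝ) (hR : 1 ≤ R) (S : Finset ℕ)
    (hS : ∀ m ∈ S, 1 ≤ m ∧ m + h ≤ Y ∧ ∃ k a b k' a' b' : ℕ, 1 ≤ k ∧ 1 ≤ k' ∧
      ((k : ℝ) * (k' : ℝ) ≤ R) ∧ 1 ≤ a ∧ 1 ≤ b ∧ 1 ≤ a' ∧ 1 ≤ b' ∧
      m = k * a ^ 2 * b ^ 3 ∧ m + h = k' * a' ^ 2 * b' ^ 3) :
    (S.card : ℝ) ≤ 12 * (h : ℝ) ^ 2 * R ^ (3 / 5 : ℝ) * (Y : ℝ) ^ (2 / 5 : ℝ) *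
      (1 + Real.log R) * ((Nat.log 2 Y : ℝ) + 1) := by
  classical
  have hlog2 : (1 : ℝ) ≤ (Nat.log 2 Y : ℝ) + 1 := by
    have : (0 : ℝ) ≤ (Nat.log 2 Y : ℝ) := Nat.cast_nonneg _
    linarith
  have hlogR : (1 : ℝ) ≤ 1 + Real.log R := by
    have := Real.log_nonneg hR
    linarith
  have hh' : (1 : ℝ) ≤ (h : ℝ) ^ 2 := by
    have : (1 : ℝ) ≤ h := by exact_mod_cast hh
    nlinarith
  have hR0 : (0 : ℝ) < R := by linarith
  rcases S.eq_empty_or_nonempty with hSe | ⟨m0, hm0⟩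
  · subst hSe
    simp only [Finset.card_empty, Nat.cast_zero]
    have : 0 ≤ 1 + Real.log R := by linarith
    positivity
  have hY1 : 1 ≤ Y := by
    have h1 := (hS m0 hm0).1
    have h2 := (hS m0 hm0).2.1
    omega
  have hYr : (1 : ℝ) ≤ Y := by exact_mod_cast hY1
  have hY0 : (0 : ℝ) < Y := by linarith
  obtain ⟨y, hy0, hyY, hy4, hy6⟩ := exists_root (Y : ℝ) hY0
  obtain ⟨r, hr0, hrR, hr4, hr6⟩ := exists_root R hR0
  set L : ℝ := (h : ℝ) ^ 2 * (1 + Real.log R) * ((Nat.log 2 Y : ℝ) + 1) with hL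
  have hL1 : 1 ≤ L := by
    have h1 : 1 ≤ (h : ℝ) ^ 2 * (1 + Real.log R) := by nlinarith
    rw [hL]
    nlinarith
  have goal_eq : 12 * (h : ℝ) ^ 2 * R ^ (3 / 5 : ℝ) * (Y : ℝ) ^ (2 / 5 : ℝ) *
      (1 + Real.log R) * ((Nat.log 2 Y : ℝ) + 1) = 12 * (L * (r ^ 6 * y ^ 4)) := by
    rw [hL, hy4, hr6]; ring
  rw [goal_eq]
  have hM0 : 0 < r ^ 6 * y ^ 4 := by positivity
  rcases lt_or_ge (Y : ℝ) R with hYR | hRY
  · have hc : S.card ≤ Y := by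
      calc S.card ≤ (Icc 1 Y).card := Finset.card_le_card (fun m hm =>
            Finset.mem_Icc.2 ⟨(hS m hm).1, by have := (hS m hm).2.1; omega⟩)
        _ = Y := by simp
    have h1 : (S.card : ℝ) ≤ Y := by exact_mod_cast hc
    have hyr : y ≤ r := by
      by_contra hc
      push Not at hc
      have : r ^ 10 < y ^ 10 := pow_lt_pow_left₀ hc hr0.le (by norm_num)
      rw [← hrR, ← hyY] at this
      linarith
    have h4 : (Y : ℝ) ≤ r ^ 6 * y ^ 4 := by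
      calc (Y : ℝ) = y ^ 6 * y ^ 4 := by rw [hyY]; ring
        _ ≤ r ^ 6 * y ^ 4 :=
          mul_le_mul_of_nonneg_right (pow_le_pow_left₀ hy0.le hyr 6) (by positivity)
    nlinarith
  set K := ⌊R⌋₊ with hK
  have hK1 : 1 ≤ K := Nat.le_floor (by exact_mod_cast hR)
  have hKR : (K : ℝ) ≤ R := Nat.floor_le hR0.le
  have hK1r : (1 : ℝ) ≤ K := by exact_mod_cast hK1
  have hry : r ≤ y := by
    by_contra hc
    push Not at hc
    have : y ^ 10 < r ^ 10 := pow_lt_pow_left₀ hc hy0.le (by norm_num)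
    rw [← hrR, ← hyY] at this
    linarith
  set u : ℝ := y / r with hu
  have hu1 : 1 ≤ u := by rw [hu, le_div_iff₀ hr0]; linarith
  have hur : u * r = y := by rw [hu]; field_simp
  set B := ⌈u ^ 2⌉₊ with hB
  have hu2 : 1 ≤ u ^ 2 := by nlinarith
  have htB : u ^ 2 ≤ (B : ℝ) := Nat.le_ceil _
  have hB1 : 1 ≤ B := by
    have : (1 : ℝ) ≤ (B : ℝ) := by linarith
    exact_mod_cast this
  have hBt : (B : ℝ) ≤ 2 * u ^ 2 := by
    have := Nat.ceil_lt_add_one (show (0 : ℝ) ≤ u ^ 2 by positivity)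
    linarith
  have hsY : √(Y : ℝ) = y ^ 5 := by
    rw [hyY, show y ^ 10 = (y ^ 5) ^ 2 by ring, Real.sqrt_sq (by positivity)]
  have hsK : √(K : ℝ) ≤ r ^ 5 := by
    calc √(K : ℝ) ≤ √R := Real.sqrt_le_sqrt hKR
      _ = r ^ 5 := by
        rw [hrR, show r ^ 10 = (r ^ 5) ^ 2 by ring, Real.sqrt_sq (by positivity)]
  have hsB : u ≤ √(B : ℝ) := Real.le_sqrt_of_sq_le htB
  have htail : 4 * √(Y : ℝ) * √(K : ℝ) / √(B : ℝ) ≤ 4 * (r ^ 6 * y ^ 4) := by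
    have hu0 : 0 < u := by linarith
    rw [div_le_iff₀ (by linarith), hsY]
    calc 4 * y ^ 5 * √(K : ℝ) ≤ 4 * y ^ 5 * r ^ 5 :=
          mul_le_mul_of_nonneg_left hsK (by positivity)
      _ = 4 * (r ^ 6 * y ^ 4) * u := by
          rw [show 4 * y ^ 5 * r ^ 5 = 4 * y ^ 4 * r ^ 5 * y by ring, ← hur]; ring
      _ ≤ 4 * (r ^ 6 * y ^ 4) * √(B : ℝ) := mul_le_mul_of_nonneg_left hsB (by positivity)
  -- the three parts
  set P := (Icc 1 K ×ˢ Icc 1 K).filter (fun z : ℕ × ℕ => z.1 * z.2 ≤ K) with hP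
  set S1 := (P ×ˢ (Icc 1 B ×ˢ Icc 1 B)).biUnion (fun w : (ℕ × ℕ) × (ℕ × ℕ) =>
    S.filter (fun m => ∃ x z : ℕ, m = (w.1.1 * w.2.1 ^ 3) * x ^ 2 ∧
      m + h = (w.1.2 * w.2.2 ^ 3) * z ^ 2)) with hS1
  set T2 : ℕ → Finset ℕ := fun k => S.filter (fun m => ∃ a b : ℕ, 1 ≤ a ∧ B < b ∧
    m = k * a ^ 2 * b ^ 3) with hT2
  set T3 : ℕ → Finset ℕ := fun k => S.filter (fun m => ∃ a b : ℕ, 1 ≤ a ∧ B < b ∧
    m + h = k * a ^ 2 * b ^ 3) with hT3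
  have hcov : S ⊆ S1 ∪ ((Icc 1 K).biUnion T2 ∪ (Icc 1 K).biUnion T3) := by
    intro m hm
    obtain ⟨hm1, hmY, k, a, b, k', a', b', hk, hk', hkk, ha, hb, ha', hb', h1, h2⟩ := hS m hm
    have hkkK : k * k' ≤ K := Nat.le_floor (by push_cast; exact hkk)
    have hkK : k ≤ K := le_trans (Nat.le_mul_of_pos_right k hk') hkkK
    have hkK' : k' ≤ K := le_trans (Nat.le_mul_of_pos_left k' hk) hkkK
    rw [Finset.mem_union, Finset.mem_union]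
    rcases Nat.lt_or_ge B b with hbB | hbB
    · right; left
      exact Finset.mem_biUnion.2 ⟨k, Finset.mem_Icc.2 ⟨hk, hkK⟩,
        Finset.mem_filter.2 ⟨hm, a, b, ha, hbB, h1⟩⟩
    rcases Nat.lt_or_ge B b' with hbB' | hbB'
    · right; right
      exact Finset.mem_biUnion.2 ⟨k', Finset.mem_Icc.2 ⟨hk', hkK'⟩,
        Finset.mem_filter.2 ⟨hm, a', b', ha', hbB', h2⟩⟩
    left
    refine Finset.mem_biUnion.2 ⟨((k, k'), (b, b')), ?_, ?_⟩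
    · refine Finset.mem_product.2 ⟨Finset.mem_filter.2 ⟨Finset.mem_product.2
        ⟨Finset.mem_Icc.2 ⟨hk, hkK⟩, Finset.mem_Icc.2 ⟨hk', hkK'⟩⟩, hkkK⟩,
        Finset.mem_product.2 ⟨Finset.mem_Icc.2 ⟨hb, hbB⟩, Finset.mem_Icc.2 ⟨hb', hbB'⟩⟩⟩
    · refine Finset.mem_filter.2 ⟨hm, a, a', ?_, ?_⟩
      · rw [h1]; ring
      · rw [h2]; ring
  have c0 : S.card ≤ S1.card + (((Icc 1 K).biUnion T2).card + ((Icc 1 K).biUnion T3).card) :=
    (Finset.card_le_card hcov).trans ((Finset.card_union_le _ _).trans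
      (Nat.add_le_add_left (Finset.card_union_le _ _) _))
  have c1 : S1.card ≤ (P ×ˢ (Icc 1 B ×ˢ Icc 1 B)).card * ((Nat.log 2 Y + 1) * h ^ 2) := by
    refine Finset.card_biUnion_le_card_mul _ _ _ (fun w hw => ?_)
    obtain ⟨hw1, hw2⟩ := Finset.mem_product.1 hw
    obtain ⟨hw3, hw4⟩ := Finset.mem_product.1 hw2
    obtain ⟨hw5, hw6⟩ := Finset.mem_product.1 (Finset.mem_filter.1 hw1).1
    have e1 := (Finset.mem_Icc.1 hw3).1
    have e2 := (Finset.mem_Icc.1 hw4).1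
    have e3 := (Finset.mem_Icc.1 hw5).1
    have e4 := (Finset.mem_Icc.1 hw6).1
    refine card_pell (w.1.1 * w.2.1 ^ 3) (w.1.2 * w.2.2 ^ 3) Y h
      (Nat.mul_pos e3 (Nat.pow_pos e1)) (Nat.mul_pos e4 (Nat.pow_pos e2)) hh _ (fun n hn => ?_)
    obtain ⟨hn1, hn2⟩ := Finset.mem_filter.1 hn
    refine ⟨(hS n hn1).1, ?_, hn2⟩
    have := (hS n hn1).2.1
    omega
  have c2 : (((Icc 1 K).biUnion T2).card : ℝ) ≤ 4 * (r ^ 6 * y ^ 4) := by
    have e1 : ((Icc 1 K).biUnion T2).card ≤ ∑ k ∈ Icc 1 K, (T2 k).card :=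
      Finset.card_biUnion_le
    have e2 : (((Icc 1 K).biUnion T2).card : ℝ) ≤ ∑ k ∈ Icc 1 K, ((T2 k).card : ℝ) := by
      exact_mod_cast e1
    refine e2.trans ((tail_sum Y K B hB1 T2 (fun k hk m hm => ?_)).trans htail)
    obtain ⟨hm1, hm2⟩ := Finset.mem_filter.1 hm
    refine ⟨(hS m hm1).1, ?_, hm2⟩
    have := (hS m hm1).2.1
    omega
  have c3 : (((Icc 1 K).biUnion T3).card : ℝ) ≤ 4 * (r ^ 6 * y ^ 4) := by
    have e1 : ((Icc 1 K).biUnion T3).card ≤ ∑ k ∈ Icc 1 K, (T3 k).card :=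
      Finset.card_biUnion_le
    have e3 : ∀ k, (T3 k).card = ((T3 k).image (fun m => m + h)).card := fun k =>
      (Finset.card_image_of_injective _ (add_left_injective h)).symm
    have e2 : (((Icc 1 K).biUnion T3).card : ℝ) ≤
        ∑ k ∈ Icc 1 K, ((((T3 k).image (fun m => m + h))).card : ℝ) := by
      have : ((Icc 1 K).biUnion T3).card ≤
          ∑ k ∈ Icc 1 K, ((T3 k).image (fun m => m + h)).card := by
        refine e1.trans (le_of_eq (Finset.sum_congr rfl (fun k _ => e3 k)))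
      exact_mod_cast this
    refine e2.trans ((tail_sum Y K B hB1 (fun k => (T3 k).image (fun m => m + h))
      (fun k hk m hm => ?_)).trans htail)
    obtain ⟨n, hn, rfl⟩ := Finset.mem_image.1 hm
    obtain ⟨hm1, hm2⟩ := Finset.mem_filter.1 hn
    refine ⟨?_, (hS n hm1).2.1, hm2⟩
    have := (hS n hm1).1
    omega
  have c4 : (S1.card : ℝ) ≤ 4 * (L * (r ^ 6 * y ^ 4)) := by
    have e1 : (S1.card : ℝ) ≤ ((P.card : ℝ) * ((B : ℝ) * (B : ℝ))) *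
        (((Nat.log 2 Y : ℝ) + 1) * (h : ℝ) ^ 2) := by
      have : S1.card ≤ (P.card * (B * B)) * ((Nat.log 2 Y + 1) * h ^ 2) := by
        refine c1.trans (le_of_eq ?_)
        rw [Finset.card_product, Finset.card_product]
        simp
      exact_mod_cast this
    have e2 : (P.card : ℝ) ≤ R * (1 + Real.log R) := by
      refine (pairs K).trans ?_
      have : Real.log K ≤ Real.log R := Real.log_le_log (by linarith) hKR
      have h0 : 0 ≤ Real.log K := Real.log_nonneg hK1r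
      exact mul_le_mul hKR (by linarith) (by linarith) hR0.le
    have e3 : (B : ℝ) * (B : ℝ) ≤ 4 * u ^ 4 := by
      calc (B : ℝ) * (B : ℝ) ≤ (2 * u ^ 2) * (2 * u ^ 2) :=
            mul_le_mul hBt hBt (by positivity) (by positivity)
        _ = 4 * u ^ 4 := by ring
    have hlR : 0 ≤ 1 + Real.log R := by linarith
    calc (S1.card : ℝ) ≤ ((P.card : ℝ) * ((B : ℝ) * (B : ℝ))) *
        (((Nat.log 2 Y : ℝ) + 1) * (h : ℝ) ^ 2) := e1
      _ ≤ ((R * (1 + Real.log R)) * (4 * u ^ 4)) * (((Nat.log 2 Y : ℝ) + 1) * (h : ℝ) ^ 2) := by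
          refine mul_le_mul_of_nonneg_right (mul_le_mul e2 e3 (by positivity) ?_) (by positivity)
          exact mul_nonneg hR0.le hlR
      _ = 4 * (L * (R * u ^ 4)) := by rw [hL]; ring
      _ = 4 * (L * (r ^ 6 * y ^ 4)) := by
          have : R * u ^ 4 = r ^ 6 * y ^ 4 := by
            rw [← hur, hrR]; ring
          rw [this]
  have c0' : (S.card : ℝ) ≤ (S1.card : ℝ) + ((((Icc 1 K).biUnion T2).card : ℝ) +
      (((Icc 1 K).biUnion T3).card : ℝ)) := by exact_mod_cast c0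
  have hLM : r ^ 6 * y ^ 4 ≤ L * (r ^ 6 * y ^ 4) := le_mul_of_one_le_left hM0.le hL1
  linarith

end Pool.Agent.SE9
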