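import Mathlib

set_option autoImplicit false

namespace Pool.Agent.SE9

lemma numeric (l : ℕ) (hl : 1 ≤ l) : ∃ C : ℝ, ∀ c : ℝ, 0 < c → c ≤ 1 → ∀ X : ℕ, 2 ≤ X →
    1 ≤ (((l + 1).factorial : ℝ)) ^ 2 * c ^ (-(2 / ((l : ℝ) + 1))) ∧
    ((l : ℝ) + 1) ^ 2 * (12 * (l : ℝ) ^ 2 *
      ((((l + 1).factorial : ℝ)) ^ 2 * c ^ (-(2 / ((l : ℝ) + 1)))) ^ (3 / 5 : ℝ) *
      (((X + l : ℕ)) : ℝ) ^ (2 / 5 : ℝ) *
      (1 + Real.log ((((l + 1).factorial : ℝ)) ^ 2 * c ^ (-(2 / ((l : ℝ) + 1))))) *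
      ((Nat.log 2 (X + l) : ℝ) + 1)) ≤
    C * c ^ (-(6 / (5 * ((l : ℝ) + 1)))) * (1 + Real.log (1 / c)) *
      (X : ℝ) ^ (2 / 5 : ℝ) * Real.log X := by
  set F : ℝ := ((l + 1).factorial : ℝ) with hF
  have hF1 : 1 ≤ F := by
    rw [hF]
    exact_mod_cast Nat.factorial_pos (l + 1)
  have hF0 : 0 < F := by linarith
  set s : ℝ := (l : ℝ) + 1 with hs
  have hl1 : (1 : ℝ) ≤ l := by exact_mod_cast hl
  have hs2 : 2 ≤ s := by rw [hs]; linarith
  have hs0 : 0 < s := by linarith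
  have hlogF : 0 ≤ Real.log F := Real.log_nonneg hF1
  have hlogs : 0 ≤ Real.log s := Real.log_nonneg (by linarith)
  have hlog2 : 0 < Real.log 2 := Real.log_pos (by norm_num)
  refine ⟨s ^ 2 * (12 * (l : ℝ) ^ 2) * (F ^ 2) ^ (3 / 5 : ℝ) * s ^ (2 / 5 : ℝ) *
    (1 + 2 * Real.log F) * ((2 + Real.log s / Real.log 2) / Real.log 2), ?_⟩
  intro c hc hc1 X hX
  have hX1 : (2 : ℝ) ≤ X := by exact_mod_cast hX
  have hX0 : (0 : ℝ) < X := by linarith
  have hlX : Real.log 2 ≤ Real.log X := Real.log_le_log (by norm_num) hX1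
  have hlX0 : 0 < Real.log X := by linarith
  have hlc : 0 ≤ Real.log (1 / c) := Real.log_nonneg (by rw [le_div_iff₀ hc]; linarith)
  have hcp : 1 ≤ c ^ (-(2 / s)) := by
    refine Real.one_le_rpow_of_pos_of_le_one_of_nonpos hc hc1 ?_
    have : 0 < 2 / s := by positivity
    linarith
  have hF2 : 1 ≤ F ^ 2 := one_le_pow₀ hF1
  have hR1 : 1 ≤ F ^ 2 * c ^ (-(2 / s)) := by nlinarith
  refine ⟨hR1, ?_⟩
  have e1 : (F ^ 2 * c ^ (-(2 / s))) ^ (3 / 5 : ℝ) =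
      (F ^ 2) ^ (3 / 5 : ℝ) * c ^ (-(6 / (5 * s))) := by
    rw [Real.mul_rpow (by positivity) (by positivity), ← Real.rpow_mul hc.le]
    congr 2
    field_simp
    ring
  have e2 : 1 + Real.log (F ^ 2 * c ^ (-(2 / s))) ≤
      (1 + 2 * Real.log F) * (1 + Real.log (1 / c)) := by
    rw [Real.log_mul (by positivity) (by positivity), Real.log_pow, Real.log_rpow hc]
    have h1 : Real.log (1 / c) = - Real.log c := by
      rw [one_div, Real.log_inv]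
    have h2 : -(2 / s) * Real.log c = (2 / s) * Real.log (1 / c) := by rw [h1]; ring
    have h3 : 2 / s ≤ 1 := by rw [div_le_one hs0]; linarith
    have h4 : (2 / s) * Real.log (1 / c) ≤ 1 * Real.log (1 / c) :=
      mul_le_mul_of_nonneg_right h3 hlc
    rw [h2]
    push_cast
    have h5 : 0 ≤ Real.log F * Real.log (1 / c) := mul_nonneg hlogF hlc
    nlinarith
  have hXl : ((X + l : ℕ) : ℝ) ≤ X * s := by
    push_cast
    rw [hs]
    nlinarith
  have e3 : ((X + l : ℕ) : ℝ) ^ (2 / 5 : ℝ) ≤ (X : ℝ) ^ (2 / 5 : ℝ) * s ^ (2 / 5 : ℝ) := by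
    rw [← Real.mul_rpow hX0.le hs0.le]
    exact Real.rpow_le_rpow (by positivity) hXl (by norm_num)
  have e4 : (Nat.log 2 (X + l) : ℝ) + 1 ≤
      ((2 + Real.log s / Real.log 2) / Real.log 2) * Real.log X := by
    have h1 : (Nat.log 2 (X + l) : ℝ) * Real.log 2 ≤ Real.log ((X + l : ℕ) : ℝ) := by
      have h2 : 2 ^ (Nat.log 2 (X + l)) ≤ X + l := Nat.pow_log_le_self 2 (by omega)
      have h3 : ((2 : ℝ)) ^ (Nat.log 2 (X + l)) ≤ ((X + l : ℕ) : ℝ) := by exact_mod_cast h2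
      rw [← Real.log_pow]
      exact Real.log_le_log (by positivity) h3
    have h4 : Real.log ((X + l : ℕ) : ℝ) ≤ Real.log X + Real.log s := by
      rw [← Real.log_mul hX0.ne' hs0.ne']
      refine Real.log_le_log ?_ hXl
      have : 0 < X + l := by omega
      exact_mod_cast this
    have h5 : Real.log s ≤ Real.log s / Real.log 2 * Real.log X := by
      rw [div_mul_eq_mul_div, le_div_iff₀ hlog2]
      exact mul_le_mul_of_nonneg_left hlX hlogs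
    have h6 : ((Nat.log 2 (X + l) : ℝ) + 1) * Real.log 2 ≤
        (2 + Real.log s / Real.log 2) * Real.log X := by
      nlinarith
    rw [div_mul_eq_mul_div, le_div_iff₀ hlog2]
    exact h6
  rw [e1]
  have hc6 : 0 < c ^ (-(6 / (5 * s))) := Real.rpow_pos_of_pos hc _
  have hFp : 0 < (F ^ 2) ^ (3 / 5 : ℝ) := by positivity
  have hsp : 0 < s ^ (2 / 5 : ℝ) := by positivity
  have hXp : 0 < (X : ℝ) ^ (2 / 5 : ℝ) := by positivity
  have hXlp : 0 ≤ ((X + l : ℕ) : ℝ) ^ (2 / 5 : ℝ) := by positivity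
  have hlR : 0 ≤ 1 + Real.log (F ^ 2 * c ^ (-(2 / s))) := by
    have := Real.log_nonneg hR1
    linarith
  have hN : 0 ≤ (Nat.log 2 (X + l) : ℝ) + 1 := by positivity
  have hA : 0 ≤ (1 + 2 * Real.log F) * (1 + Real.log (1 / c)) := by positivity
  have m1 : ((X + l : ℕ) : ℝ) ^ (2 / 5 : ℝ) *
      (1 + Real.log (F ^ 2 * c ^ (-(2 / s)))) * ((Nat.log 2 (X + l) : ℝ) + 1) ≤
      ((X : ℝ) ^ (2 / 5 : ℝ) * s ^ (2 / 5 : ℝ)) *
      ((1 + 2 * Real.log F) * (1 + Real.log (1 / c))) *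
      (((2 + Real.log s / Real.log 2) / Real.log 2) * Real.log X) := by
    refine mul_le_mul (mul_le_mul e3 e2 hlR (by positivity)) e4 hN ?_
    exact mul_nonneg (by positivity) hA
  have m2 := mul_le_mul_of_nonneg_left m1
    (show 0 ≤ s ^ 2 * (12 * (l : ℝ) ^ 2) * ((F ^ 2) ^ (3 / 5 : ℝ) * c ^ (-(6 / (5 * s)))) by
      positivity)
  refine le_trans (le_of_eq ?_) (m2.trans (le_of_eq ?_))
  · ring
  · ring

end Pool.Agent.SE9
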