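import Mathlib
import Pool.Agent.SE9.Main
import Pool.Agent.SE9.Count
import Pool.Agent.SE9.Num

set_option autoImplicit false

open Finset

namespace Pool.Agent.SE9

/-- two members `n + i < n + j` with small cofactors -/
theorem good_pair (l : ℕ) (hl : 1 ≤ l) (c : ℝ) (hc : 0 < c) (n : ℕ) (hn : 1 ≤ n)
    (h : c * (n : ℝ) ^ (l + 1) ≤
      (((∏ i ∈ Finset.range (l + 1), (n + i)).factorization.prod
          (fun p k => if 2 ≤ k then p ^ k else 1) : ℕ) : ℝ)) :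
    ∃ i ∈ range (l + 1), ∃ j ∈ range (l + 1), i < j ∧
      ((Q1 (n + i) : ℕ) : ℝ) * ((Q1 (n + j) : ℕ) : ℝ) ≤
        (((l + 1).factorial : ℝ)) ^ 2 * c ^ (-(2 / ((l : ℝ) + 1))) := by
  have h1 := Q1_bound l n c hc hn h
  obtain ⟨i, hi, j, hj, hij, h2⟩ := two_small l hl (fun i => ((Q1 (n + i) : ℕ) : ℝ))
    (fun i => by exact_mod_cast Q1_pos (n + i))
  refine ⟨i, hi, j, hj, hij, ?_⟩
  have h3 : (∏ i ∈ range (l + 1), ((Q1 (n + i) : ℕ) : ℝ)) ≤
      (((l + 1).factorial : ℝ)) ^ (l + 1) / c := by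
    have := h1
    push_cast at this
    exact this
  have h4 : (0 : ℝ) ≤ ∏ i ∈ range (l + 1), ((Q1 (n + i) : ℕ) : ℝ) := by positivity
  have h5 := h2.trans (pow_le_pow_left₀ h4 h3 2)
  have hl0 : (0 : ℝ) < (l : ℝ) + 1 := by positivity
  have h6 : ((((l + 1).factorial : ℝ)) ^ (l + 1) / c) ^ 2 =
      ((((l + 1).factorial : ℝ)) ^ 2 * c ^ (-(2 / ((l : ℝ) + 1)))) ^ (l + 1) := by
    rw [mul_pow, ← Real.rpow_natCast (c ^ (-(2 / ((l : ℝ) + 1)))) (l + 1),
      ← Real.rpow_mul hc.le]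
    have e1 : -(2 / ((l : ℝ) + 1)) * ((l + 1 : ℕ) : ℝ) = -2 := by
      push_cast; field_simp
    rw [e1, Real.rpow_neg hc.le, div_pow]
    have e2 : c ^ (2 : ℝ) = c ^ 2 := by exact_mod_cast Real.rpow_natCast c 2
    rw [e2]
    rw [← pow_mul, ← pow_mul, mul_comm (l + 1) 2]
    rfl
  rw [h6] at h5
  exact le_of_pow_le_pow_left₀ (by omega) (by positivity) h5

open Classical in
theorem main (l : ℕ) (hl : 1 ≤ l) : ∃ C : ℝ, ∀ c : ℝ, 0 < c → c ≤ 1 → ∀ X : ℕ, 2 ≤ X →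
    (({n : ℕ | 1 ≤ n ∧ n ≤ X ∧ c * (n : ℝ) ^ (l + 1) ≤
      (((∏ i ∈ Finset.range (l + 1), (n + i)).factorization.prod
          (fun p k => if 2 ≤ k then p ^ k else 1) : ℕ) : ℝ)}.ncard : ℕ) : ℝ) ≤
      C * c ^ (-(6 / (5 * ((l : ℝ) + 1)))) * (1 + Real.log (1 / c)) *
        (X : ℝ) ^ (2 / 5 : ℝ) * Real.log X := by
  obtain ⟨C, hC⟩ := numeric l hl
  refine ⟨C, fun c hc hc1 X hX => ?_⟩
  obtain ⟨hR, hnum⟩ := hC c hc hc1 X hX
  refine le_trans ?_ hnum
  set R : ℝ := (((l + 1).factorial : ℝ)) ^ 2 * c ^ (-(2 / ((l : ℝ) + 1))) with hRdef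
  set S : Set ℕ := {n : ℕ | 1 ≤ n ∧ n ≤ X ∧ c * (n : ℝ) ^ (l + 1) ≤
      (((∏ i ∈ Finset.range (l + 1), (n + i)).factorization.prod
          (fun p k => if 2 ≤ k then p ^ k else 1) : ℕ) : ℝ)} with hS
  have hfin : S.Finite := (Set.finite_Icc 1 X).subset (fun n hn => ⟨hn.1, hn.2.1⟩)
  rw [Set.ncard_eq_toFinset_card S hfin]
  set F := hfin.toFinset with hF
  have hFmem : ∀ n, n ∈ F ↔ n ∈ S := fun n => by simp [hF]
  -- the sets for the pairs
  set G : ℕ × ℕ → Finset ℕ := fun z => F.filter (fun n => z.1 < z.2 ∧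
      ((Q1 (n + z.1) : ℕ) : ℝ) * ((Q1 (n + z.2) : ℕ) : ℝ) ≤ R) with hG
  have hcover : F ⊆ (range (l + 1) ×ˢ range (l + 1)).biUnion G := by
    intro n hn
    obtain ⟨hn1, hn2, hn3⟩ := (hFmem n).1 hn
    obtain ⟨i, hi, j, hj, hij, hle⟩ := good_pair l hl c hc n hn1 hn3
    exact Finset.mem_biUnion.2 ⟨(i, j), Finset.mem_product.2 ⟨hi, hj⟩,
      Finset.mem_filter.2 ⟨hn, hij, hle⟩⟩
  set M : ℝ := 12 * (l : ℝ) ^ 2 * R ^ (3 / 5 : ℝ) * (((X + l : ℕ)) : ℝ) ^ (2 / 5 : ℝ) *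
    (1 + Real.log R) * ((Nat.log 2 (X + l) : ℝ) + 1) with hM
  have hlogR : 0 ≤ Real.log R := Real.log_nonneg hR
  have hM0 : 0 ≤ M := by
    have : 0 ≤ R := by linarith
    positivity
  have hpair : ∀ z ∈ range (l + 1) ×ˢ range (l + 1), ((G z).card : ℝ) ≤ M := by
    intro z hz
    obtain ⟨hz1, hz2⟩ := Finset.mem_product.1 hz
    have hz1' := Finset.mem_range.1 hz1
    have hz2' := Finset.mem_range.1 hz2
    by_cases hlt : z.1 < z.2
    · have hcard : ((G z).image (fun n => n + z.1)).card = (G z).card :=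
        Finset.card_image_of_injective _ (fun a b hab => by simpa using hab)
      rw [← hcard]
      have hcount := count (z.2 - z.1) (by omega) (X + l) R hR
        ((G z).image (fun n => n + z.1)) (by
          intro m hm
          obtain ⟨n, hn, rfl⟩ := Finset.mem_image.1 hm
          obtain ⟨hnF, _, hle⟩ := Finset.mem_filter.1 hn
          obtain ⟨hn1, hn2, hn3⟩ := (hFmem n).1 hnF
          obtain ⟨a, b, ha, hb, hab⟩ := decomp (n + z.1) (by omega)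
          obtain ⟨a', b', ha', hb', hab'⟩ := decomp (n + z.2) (by omega)
          refine ⟨by show 1 ≤ n + z.1; omega, by show n + z.1 + (z.2 - z.1) ≤ X + l; omega,
            Q1 (n + z.1), a, b, Q1 (n + z.2), a', b', Q1_pos _, Q1_pos _, hle, ha, hb, ha', hb',
            hab, ?_⟩
          have : n + z.1 + (z.2 - z.1) = n + z.2 := by omega
          show n + z.1 + (z.2 - z.1) = _
          rw [this]; exact hab')
      refine hcount.trans ?_
      have hh : ((z.2 - z.1 : ℕ) : ℝ) ^ 2 ≤ (l : ℝ) ^ 2 := by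
        refine pow_le_pow_left₀ (by positivity) ?_ 2
        exact_mod_cast (by omega : z.2 - z.1 ≤ l)
      have hrest : 0 ≤ R ^ (3 / 5 : ℝ) * (((X + l : ℕ)) : ℝ) ^ (2 / 5 : ℝ) *
          (1 + Real.log R) * ((Nat.log 2 (X + l) : ℝ) + 1) := by
        have : 0 ≤ R := by linarith
        positivity
      calc 12 * ((z.2 - z.1 : ℕ) : ℝ) ^ 2 * R ^ (3 / 5 : ℝ) * (((X + l : ℕ)) : ℝ) ^ (2 / 5 : ℝ) *
            (1 + Real.log R) * ((Nat.log 2 (X + l) : ℝ) + 1)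
          = (12 * ((z.2 - z.1 : ℕ) : ℝ) ^ 2) * (R ^ (3 / 5 : ℝ) *
            (((X + l : ℕ)) : ℝ) ^ (2 / 5 : ℝ) *
            (1 + Real.log R) * ((Nat.log 2 (X + l) : ℝ) + 1)) := by ring
        _ ≤ (12 * (l : ℝ) ^ 2) * (R ^ (3 / 5 : ℝ) *
            (((X + l : ℕ)) : ℝ) ^ (2 / 5 : ℝ) *
            (1 + Real.log R) * ((Nat.log 2 (X + l) : ℝ) + 1)) := by
              refine mul_le_mul_of_nonneg_right ?_ hrest
              linarith
        _ = M := by rw [hM]; ring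
    · have : G z = ∅ := by
        refine Finset.filter_false_of_mem (fun n _ hcon => hlt hcon.1)
      rw [this]; simpa using hM0
  have h1 : (F.card : ℝ) ≤ ∑ z ∈ range (l + 1) ×ˢ range (l + 1), ((G z).card : ℝ) := by
    have h2 := (Finset.card_le_card hcover).trans Finset.card_biUnion_le
    exact_mod_cast h2
  calc (F.card : ℝ) ≤ ∑ z ∈ range (l + 1) ×ˢ range (l + 1), ((G z).card : ℝ) := h1
    _ ≤ ∑ _z ∈ range (l + 1) ×ˢ range (l + 1), M := Finset.sum_le_sum hpair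
    _ = ((l : ℝ) + 1) ^ 2 * M := by
        rw [Finset.sum_const, Finset.card_product, Finset.card_range, nsmul_eq_mul]
        push_cast; ring
    _ = _ := by rw [hM]

end Pool.Agent.SE9
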